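import Mathlib

open MeasureTheory Topology Filter

namespace Pool.Agent.Lib.Pf32e1d

noncomputable local instance instMeasZ2 : MeasurableSpace ℤ_[2] := borel _
local instance instBorelZ2 : BorelSpace ℤ_[2] := ⟨rfl⟩

/-- normalised Haar measure on the `2`-adic integers -/
noncomputable def P : Measure ℤ_[2] := Measure.addHaarMeasure ⊤

instance : IsProbabilityMeasure P := by
  constructor
  have := Measure.addHaarMeasure_self (K₀ := (⊤ : TopologicalSpace.PositiveCompacts ℤ_[2]))
  simpa [P] using this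

instance : P.IsAddHaarMeasure := by unfold P; infer_instance

/-- `toZModPow d` is locally constant. -/
lemma toZModPow_eq_of_norm (d : ℕ) (x y : ℤ_[2]) (h : ‖x - y‖ ≤ (2 : ℝ) ^ (-(d : ℤ))) :
    PadicInt.toZModPow d x = PadicInt.toZModPow d y := by
  have h1 : x - y ∈ (Ideal.span {((2 : ℕ) : ℤ_[2]) ^ d} : Ideal ℤ_[2]) := by
    rw [← PadicInt.norm_le_pow_iff_mem_span_pow]
    exact_mod_cast h
  rw [← PadicInt.ker_toZModPow, RingHom.mem_ker, map_sub, sub_eq_zero] at h1
  exact h1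

lemma eventually_toZModPow (d : ℕ) (x : ℤ_[2]) :
    ∀ᶠ y in 𝓝 x, PadicInt.toZModPow d y = PadicInt.toZModPow d x := by
  have : Metric.ball x ((2 : ℝ) ^ (-(d : ℤ))) ∈ 𝓝 x := Metric.ball_mem_nhds _ (by positivity)
  filter_upwards [this] with y hy
  apply toZModPow_eq_of_norm
  rw [Metric.mem_ball, dist_eq_norm] at hy
  exact hy.le

lemma isClopen_class (d : ℕ) (i : ZMod (2 ^ d)) :
    IsClopen {x : ℤ_[2] | PadicInt.toZModPow d x = i} := by
  constructor
  · rw [← isOpen_compl_iff, isOpen_iff_eventually]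
    intro x hx
    filter_upwards [eventually_toZModPow d x] with y hy
    change ¬ (PadicInt.toZModPow d y = i)
    rw [hy]; exact hx
  · rw [isOpen_iff_eventually]
    intro x hx
    filter_upwards [eventually_toZModPow d x] with y hy
    exact hy.trans hx

lemma measure_class (d : ℕ) (i : ZMod (2 ^ d)) :
    P {x : ℤ_[2] | PadicInt.toZModPow d x = i} = ((2 : ENNReal) ^ d)⁻¹ := by
  have heq : ∀ j : ZMod (2 ^ d), P {x : ℤ_[2] | PadicInt.toZModPow d x = j}
      = P {x : ℤ_[2] | PadicInt.toZModPow d x = i} := by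
    intro j
    have h := measure_preimage_add P (((j - i).val : ℕ) : ℤ_[2])
      {x : ℤ_[2] | PadicInt.toZModPow d x = j}
    rw [← h]
    congr 1
    ext x
    change PadicInt.toZModPow d ((((j - i).val : ℕ) : ℤ_[2]) + x) = j ↔ PadicInt.toZModPow d x = i
    rw [map_add, map_natCast, ZMod.natCast_zmod_val]
    constructor
    · intro hx
      have := congrArg (fun z => z - (j - i)) hx
      simpa using this
    · intro hx
      rw [hx]; ring
  have hsum := sum_measure_preimage_singleton (μ := P) (Finset.univ : Finset (ZMod (2 ^ d)))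
    (f := fun x : ℤ_[2] => PadicInt.toZModPow d x)
    (fun y _ => (isClopen_class d y).isOpen.measurableSet)
  simp only [Finset.coe_univ, Set.preimage_univ, measure_univ] at hsum
  have h2 : ∀ b ∈ (Finset.univ : Finset (ZMod (2 ^ d))),
      P ((fun x : ℤ_[2] => PadicInt.toZModPow d x) ⁻¹' {b})
      = P {x : ℤ_[2] | PadicInt.toZModPow d x = i} := fun b _ => heq b
  rw [Finset.sum_congr rfl h2, Finset.sum_const, Finset.card_univ, ZMod.card] at hsum
  rw [nsmul_eq_mul] at hsum
  push_cast at hsum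
  rw [mul_comm] at hsum
  exact (ENNReal.eq_inv_of_mul_eq_one_left hsum)

/-- The killing condition: `ω` is congruent mod `2 ^ (2 k + 2)` to the valuation of `t - k`. -/
def Kill (k : ℕ) (t ω : ℤ_[2]) : Prop :=
  PadicInt.toZModPow (2 * k + 2) ω = (((t - k).valuation : ℕ) : ZMod (2 ^ (2 * k + 2)))

open Classical in
/-- The `k`-th coordinate. -/
noncomputable def co (k : ℕ) (t ω : ℤ_[2]) : ℤ_[2] := if Kill k t ω then t - k else 0

lemma co_of_kill {k : ℕ} {t ω : ℤ_[2]} (h : Kill k t ω) : co k t ω = t - k := if_pos h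
lemma co_of_not {k : ℕ} {t ω : ℤ_[2]} (h : ¬ Kill k t ω) : co k t ω = 0 := if_neg h

lemma norm_co_le (k : ℕ) (t ω : ℤ_[2]) : ‖co k t ω‖ ≤ ‖t - k‖ := by
  by_cases h : Kill k t ω
  · rw [co_of_kill h]
  · rw [co_of_not h, norm_zero]; exact norm_nonneg _

/-- the norm is locally constant off zero -/
lemma norm_eq_of_close {x y : ℤ_[2]} (h : ‖y - x‖ < ‖x‖) : ‖y‖ = ‖x‖ := by
  have h1 : ‖y - x‖ ≠ ‖x‖ := h.ne
  have h2 := PadicInt.norm_add_eq_max_of_ne h1
  rw [sub_add_cancel] at h2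
  rw [h2, max_eq_right h.le]

lemma valuation_eq_of_norm {x y : ℤ_[2]} (hx : x ≠ 0) (h : ‖y‖ = ‖x‖) :
    y.valuation = x.valuation := by
  have hy : y ≠ 0 := by
    intro h0; rw [h0, norm_zero] at h; exact hx (norm_eq_zero.mp h.symm)
  rw [PadicInt.norm_eq_zpow_neg_valuation hx, PadicInt.norm_eq_zpow_neg_valuation hy] at h
  have := zpow_right_injective₀ (show (0 : ℝ) < ((2 : ℕ) : ℝ) by norm_num)
    (show ((2 : ℕ) : ℝ) ≠ 1 by norm_num) h
  omega

lemma eventually_valuation {x : ℤ_[2]} (hx : x ≠ 0) :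
    ∀ᶠ y in 𝓝 x, y.valuation = x.valuation := by
  have : Metric.ball x ‖x‖ ∈ 𝓝 x := Metric.ball_mem_nhds _ (norm_pos_iff.mpr hx)
  filter_upwards [this] with y hy
  rw [Metric.mem_ball, dist_eq_norm] at hy
  exact valuation_eq_of_norm hx (norm_eq_of_close hy)

lemma continuous_co (k : ℕ) : Continuous (fun q : ℤ_[2] × ℤ_[2] => co k q.1 q.2) := by
  rw [continuous_iff_continuousAt]
  rintro ⟨t, ω⟩
  by_cases ht : t - (k : ℤ_[2]) = 0
  · -- squeeze
    have h0 : co k t ω = 0 := by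
      have := norm_co_le k t ω
      rw [ht, norm_zero] at this
      exact norm_le_zero_iff.mp this
    rw [ContinuousAt, h0]
    apply squeeze_zero_norm (a := fun q : ℤ_[2] × ℤ_[2] => ‖q.1 - (k : ℤ_[2])‖)
      (fun q => norm_co_le k q.1 q.2)
    have : Tendsto (fun q : ℤ_[2] × ℤ_[2] => ‖q.1 - (k : ℤ_[2])‖) (𝓝 (t, ω))
        (𝓝 ‖(t, ω).1 - (k : ℤ_[2])‖) := by
      apply Continuous.tendsto; fun_prop
    simpa [ht] using this
  · have e1 : ∀ᶠ q : ℤ_[2] × ℤ_[2] in 𝓝 (t, ω),
        (q.1 - (k : ℤ_[2])).valuation = (t - (k : ℤ_[2])).valuation := by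
      have hc : Tendsto (fun q : ℤ_[2] × ℤ_[2] => q.1 - (k : ℤ_[2])) (𝓝 (t, ω))
          (𝓝 (t - (k : ℤ_[2]))) := by
        have : Continuous (fun q : ℤ_[2] × ℤ_[2] => q.1 - (k : ℤ_[2])) := by fun_prop
        exact this.tendsto (t, ω)
      exact hc.eventually (eventually_valuation ht)
    have e2 : ∀ᶠ q : ℤ_[2] × ℤ_[2] in 𝓝 (t, ω),
        PadicInt.toZModPow (2 * k + 2) q.2 = PadicInt.toZModPow (2 * k + 2) ω := by
      have hc : Tendsto (fun q : ℤ_[2] × ℤ_[2] => q.2) (𝓝 (t, ω)) (𝓝 ω) :=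
        continuous_snd.tendsto (t, ω)
      exact hc.eventually (eventually_toZModPow _ ω)
    by_cases hk : Kill k t ω
    · have : (fun q : ℤ_[2] × ℤ_[2] => co k q.1 q.2) =ᶠ[𝓝 (t, ω)] fun q => q.1 - (k : ℤ_[2]) := by
        filter_upwards [e1, e2] with q h1 h2
        apply co_of_kill
        unfold Kill at hk ⊢
        rw [h1, h2, hk]
      rw [ContinuousAt, co_of_kill hk]
      refine Tendsto.congr' this.symm ?_
      have : Continuous (fun q : ℤ_[2] × ℤ_[2] => q.1 - (k : ℤ_[2])) := by fun_prop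
      exact this.tendsto (t, ω)
    · have : (fun q : ℤ_[2] × ℤ_[2] => co k q.1 q.2) =ᶠ[𝓝 (t, ω)] fun _ => 0 := by
        filter_upwards [e1, e2] with q h1 h2
        apply co_of_not
        unfold Kill at hk ⊢
        rw [h1, h2]; exact hk
      rw [ContinuousAt, co_of_not hk]
      exact Tendsto.congr' this.symm tendsto_const_nhds

/-- The compact space `Y`. -/
abbrev Y : Type := ℤ_[2] × (ℕ → ℤ_[2])

/-- the embedding -/
noncomputable def Phi (t ω : ℤ_[2]) : Y := (ω, fun k => co k t ω)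

/-- the base embedding -/
noncomputable def Phi0 (ω : ℤ_[2]) : Y := (ω, fun _ => 0)

lemma continuous_Phi : Continuous (fun q : ℤ_[2] × ℤ_[2] => Phi q.1 q.2) := by
  unfold Phi
  refine Continuous.prodMk continuous_snd ?_
  exact continuous_pi (fun k => continuous_co k)

lemma continuous_Phi0 : Continuous Phi0 := by
  unfold Phi0
  fun_prop

lemma continuous_Phi_right (t : ℤ_[2]) : Continuous (Phi t) := by
  have := continuous_Phi.comp (Continuous.prodMk_right t)
  exact this

/-- first functional -/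
noncomputable def V0 (x : C(Y, ℝ)) : C(ℤ_[2], ℝ) :=
  ContinuousMap.const _ (∫ ω, |x (Phi0 ω)| ∂P)

/-- second functional -/
noncomputable def V1 (x : C(Y, ℝ)) : C(ℤ_[2], ℝ) where
  toFun t := ∫ ω, |x (Phi t ω)| ∂P
  continuous_toFun := by
    have h := continuous_parametric_integral_of_continuous (μ := P)
      (f := fun t ω : ℤ_[2] => |x (Phi t ω)|) (s := Set.univ)
      (by
        have : Continuous (fun q : ℤ_[2] × ℤ_[2] => |x (Phi q.1 q.2)|) :=
          (x.continuous.comp continuous_Phi).abs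
        exact this) isCompact_univ
    simpa using h

lemma V0_apply (x : C(Y, ℝ)) (t : ℤ_[2]) : V0 x t = ∫ ω, |x (Phi0 ω)| ∂P := rfl
lemma V1_apply (x : C(Y, ℝ)) (t : ℤ_[2]) : V1 x t = ∫ ω, |x (Phi t ω)| ∂P := rfl

lemma integrable_of_cont {f : ℤ_[2] → ℝ} (hf : Continuous f) : Integrable f P := by
  have := hf.continuousOn.integrableOn_compact (μ := P) (isCompact_univ (X := ℤ_[2]))
  rwa [integrableOn_univ] at this

lemma V0_nonneg (x : C(Y, ℝ)) : 0 ≤ V0 x := by
  intro t
  change (0 : ℝ) ≤ V0 x t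
  rw [V0_apply]
  exact integral_nonneg (fun _ => abs_nonneg _)

lemma V1_nonneg (x : C(Y, ℝ)) : 0 ≤ V1 x := by
  intro t
  change (0 : ℝ) ≤ V1 x t
  rw [V1_apply]
  exact integral_nonneg (fun _ => abs_nonneg _)

/-- pointwise form of disjointness -/
lemma disj_apply {x y : C(Y, ℝ)} (h : |x| ⊓ |y| = 0) (z : Y) : |x z| ⊓ |y z| = 0 := by
  have := congrArg (fun f : C(Y, ℝ) => f z) h
  simpa using this

lemma abs_add_of_disj {a b : ℝ} (h : |a| ⊓ |b| = 0) : |a + b| = |a| + |b| := by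
  rcases le_total |a| |b| with hle | hle
  · rw [inf_eq_left.mpr hle] at h
    rw [abs_eq_zero.mp h]; simp
  · rw [inf_eq_right.mpr hle] at h
    rw [abs_eq_zero.mp h]; simp

lemma V0_add {x y : C(Y, ℝ)} (h : |x| ⊓ |y| = 0) : V0 (x + y) = V0 x + V0 y := by
  ext t
  rw [ContinuousMap.add_apply, V0_apply, V0_apply, V0_apply, ← integral_add]
  · congr 1; ext ω
    rw [ContinuousMap.add_apply]
    exact abs_add_of_disj (disj_apply h _)
  · exact integrable_of_cont ((x.continuous.comp continuous_Phi0).abs)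
  · exact integrable_of_cont ((y.continuous.comp continuous_Phi0).abs)

lemma V1_add {x y : C(Y, ℝ)} (h : |x| ⊓ |y| = 0) : V1 (x + y) = V1 x + V1 y := by
  ext t
  rw [ContinuousMap.add_apply, V1_apply, V1_apply, V1_apply, ← integral_add]
  · congr 1; ext ω
    rw [ContinuousMap.add_apply]
    exact abs_add_of_disj (disj_apply h _)
  · exact integrable_of_cont ((x.continuous.comp (continuous_Phi_right t)).abs)
  · exact integrable_of_cont ((y.continuous.comp (continuous_Phi_right t)).abs)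

/-- restriction to a clopen set -/
noncomputable def res (x : C(Y, ℝ)) (A : Set Y) (hA : IsClopen A) : C(Y, ℝ) where
  toFun := A.indicator x
  continuous_toFun := hA.continuous_indicator x.continuous

lemma res_apply (x : C(Y, ℝ)) (A : Set Y) (hA : IsClopen A) (z : Y) :
    res x A hA z = A.indicator x z := rfl

lemma res_disj (x : C(Y, ℝ)) {A B : Set Y} (hA : IsClopen A) (hB : IsClopen B)
    (h : Disjoint A B) : |res x A hA| ⊓ |res x B hB| = 0 := by
  ext z
  simp only [ContinuousMap.inf_apply, ContinuousMap.abs_apply, ContinuousMap.zero_apply]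
  rw [res_apply, res_apply]
  by_cases h1 : z ∈ A
  · have h2 : z ∉ B := Set.disjoint_left.mp h h1
    rw [Set.indicator_of_notMem h2]
    simp
  · rw [Set.indicator_of_notMem h1]
    simp

lemma res_union (x : C(Y, ℝ)) {A B : Set Y} (hA : IsClopen A) (hB : IsClopen B)
    (h : Disjoint A B) : res x (A ∪ B) (hA.union hB) = res x A hA + res x B hB := by
  ext z
  rw [ContinuousMap.add_apply, res_apply, res_apply, res_apply]
  rw [Set.indicator_union_of_disjoint h]

lemma res_split (x : C(Y, ℝ)) {A : Set Y} (hA : IsClopen A) :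
    res x A hA + res x Aᶜ hA.compl = x := by
  ext z
  rw [ContinuousMap.add_apply, res_apply, res_apply]
  by_cases h : z ∈ A
  · rw [Set.indicator_of_mem h, Set.indicator_of_notMem (by simpa using h), add_zero]
  · rw [Set.indicator_of_notMem h, Set.indicator_of_mem (by simpa using h), zero_add]

/-- classes in `Y` -/
def AA (d : ℕ) (s : Finset (ZMod (2 ^ d))) : Set Y := {z | PadicInt.toZModPow d z.1 ∈ s}

lemma isClopen_AA (d : ℕ) (s : Finset (ZMod (2 ^ d))) : IsClopen (AA d s) := by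
  have hev : ∀ z : Y, ∀ᶠ y in 𝓝 z, PadicInt.toZModPow d y.1 = PadicInt.toZModPow d z.1 := by
    intro z
    exact (continuous_fst.tendsto z).eventually (eventually_toZModPow d z.1)
  constructor
  · rw [← isOpen_compl_iff, isOpen_iff_eventually]
    intro x hx
    filter_upwards [hev x] with y hy
    change ¬ (PadicInt.toZModPow d y.1 ∈ s)
    rw [hy]; exact hx
  · rw [isOpen_iff_eventually]
    intro x hx
    filter_upwards [hev x] with y hy
    change PadicInt.toZModPow d y.1 ∈ s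
    rw [hy]; exact hx

/-- points of `Y` with `k`-th coordinate of valuation `N` -/
def BB (k N : ℕ) : Set Y := {z | ‖z.2 k‖ = (2 : ℝ) ^ (-(N : ℤ))}

lemma isClopen_sph (N : ℕ) : IsClopen {x : ℤ_[2] | ‖x‖ = (2 : ℝ) ^ (-(N : ℤ))} := by
  constructor
  · exact isClosed_eq continuous_norm continuous_const
  · rw [isOpen_iff_eventually]
    intro x hx
    have hx' : ‖x‖ = (2 : ℝ) ^ (-(N : ℤ)) := hx
    have hpos : 0 < ‖x‖ := by rw [hx']; positivity
    filter_upwards [Metric.ball_mem_nhds x hpos] with y hy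
    rw [Metric.mem_ball, dist_eq_norm] at hy
    exact (norm_eq_of_close hy).trans hx'

lemma isClopen_BB (k N : ℕ) : IsClopen (BB k N) := by
  have hc : Continuous (fun z : Y => z.2 k) := by fun_prop
  exact (isClopen_sph N).preimage hc

lemma norm_two_pow (N : ℕ) : ‖((2 : ℤ_[2]) ^ N)‖ = (2 : ℝ) ^ (-(N : ℤ)) := by
  have := PadicInt.norm_p_pow (p := 2) N
  exact_mod_cast this

lemma two_pow_ne (N : ℕ) : ((2 : ℤ_[2]) ^ N) ≠ 0 := by
  intro h
  have := norm_two_pow N
  rw [h, norm_zero] at this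
  have h2 : (0 : ℝ) < (2 : ℝ) ^ (-(N : ℤ)) := by positivity
  linarith

lemma valuation_of_norm {x : ℤ_[2]} {N : ℕ} (h : ‖x‖ = (2 : ℝ) ^ (-(N : ℤ))) :
    x.valuation = N := by
  have hx : x ≠ 0 := by
    intro h0
    rw [h0, norm_zero] at h
    have h2 : (0 : ℝ) < (2 : ℝ) ^ (-(N : ℤ)) := by positivity
    linarith
  rw [PadicInt.norm_eq_zpow_neg_valuation hx] at h
  have h3 : ((2 : ℕ) : ℝ) ^ (-(x.valuation : ℤ)) = ((2 : ℕ) : ℝ) ^ (-(N : ℤ)) := by
    exact_mod_cast h
  have := zpow_right_injective₀ (show (0 : ℝ) < ((2 : ℕ) : ℝ) by norm_num)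
    (show ((2 : ℕ) : ℝ) ≠ 1 by norm_num) h3
  omega

section main

variable {U : C(Y, ℝ) → C(ℤ_[2], ℝ)}

lemma U_zero (hU : ∀ x y : C(Y, ℝ), |x| ⊓ |y| = 0 → U (x + y) = U x + U y) : U 0 = 0 := by
  have h := hU 0 0 (by simp)
  rw [add_zero] at h
  exact left_eq_add.mp h

/-- Key step: the two functionals split the class `i` at the points `k + 2 ^ N`, `N ≡ i`. -/
lemma key_split (x : C(Y, ℝ)) (k N : ℕ) (i : ZMod (2 ^ (2 * k + 2))) (hN : (N : ZMod (2 ^ (2 * k + 2))) = i) :
    V0 (res (res x (AA (2 * k + 2) {i}) (isClopen_AA _ _)) (BB k N) (isClopen_BB k N))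
      ((k : ℤ_[2]) + 2 ^ N) = 0 ∧
    V1 (res (res x (AA (2 * k + 2) {i}) (isClopen_AA _ _)) (BB k N)ᶜ (isClopen_BB k N).compl)
      ((k : ℤ_[2]) + 2 ^ N) = 0 := by
  constructor
  · rw [V0_apply]
    have : ∀ ω, |(res (res x (AA (2 * k + 2) {i}) (isClopen_AA _ _)) (BB k N) (isClopen_BB k N))
        (Phi0 ω)| = 0 := by
      intro ω
      rw [res_apply, Set.indicator_of_notMem, abs_zero]
      intro h
      have h' : ‖(0 : ℤ_[2])‖ = (2 : ℝ) ^ (-(N : ℤ)) := h
      rw [norm_zero] at h'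
      have h2 : (0 : ℝ) < (2 : ℝ) ^ (-(N : ℤ)) := by positivity
      linarith
    simp [this]
  · rw [V1_apply]
    have : ∀ ω, |(res (res x (AA (2 * k + 2) {i}) (isClopen_AA _ _)) (BB k N)ᶜ
        (isClopen_BB k N).compl) (Phi ((k : ℤ_[2]) + 2 ^ N) ω)| = 0 := by
      intro ω
      rw [abs_eq_zero, res_apply]
      by_cases hB : Phi ((k : ℤ_[2]) + 2 ^ N) ω ∈ (BB k N)ᶜ
      · rw [Set.indicator_of_mem hB, res_apply, Set.indicator_of_notMem]
        intro hA
        apply hB
        have hA' : PadicInt.toZModPow (2 * k + 2) ω ∈ ({i} : Finset _) := hA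
        rw [Finset.mem_singleton] at hA'
        have hk : Kill k ((k : ℤ_[2]) + 2 ^ N) ω := by
          unfold Kill
          rw [hA', add_sub_cancel_left, valuation_of_norm (norm_two_pow N), hN]
        change ‖co k ((k : ℤ_[2]) + 2 ^ N) ω‖ = (2 : ℝ) ^ (-(N : ℤ))
        rw [co_of_kill hk, add_sub_cancel_left, norm_two_pow]
      · rw [Set.indicator_of_notMem hB]
    simp [this]

lemma tendsto_two_pow (k : ℕ) (c m : ℕ) (hm : 0 < m) :
    Tendsto (fun n : ℕ => (k : ℤ_[2]) + 2 ^ (c + m * n)) atTop (𝓝 (k : ℤ_[2])) := by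
  have h0 : Tendsto (fun n : ℕ => (2 : ℤ_[2]) ^ n) atTop (𝓝 0) := by
    rw [tendsto_zero_iff_norm_tendsto_zero]
    have : (fun n : ℕ => ‖(2 : ℤ_[2]) ^ n‖) = fun n : ℕ => ((1 : ℝ) / 2) ^ n := by
      ext n
      rw [norm_two_pow]
      rw [zpow_neg, zpow_natCast, one_div, inv_pow]
    rw [this]
    exact tendsto_pow_atTop_nhds_zero_of_lt_one (by norm_num) (by norm_num)
  have h1 : Tendsto (fun n : ℕ => c + m * n) atTop atTop := by
    apply tendsto_atTop_mono (fun n => ?_) tendsto_id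
    simp only [id]
    nlinarith
  have h2 := (h0.comp h1).const_add (k : ℤ_[2])
  simpa using h2

lemma U_class_nonneg (hU : ∀ x y : C(Y, ℝ), |x| ⊓ |y| = 0 → U (x + y) = U x + U y)
    (h0 : ∀ x, -V0 x ≤ U x) (h1 : ∀ x, -V1 x ≤ U x) (x : C(Y, ℝ)) (k : ℕ)
    (i : ZMod (2 ^ (2 * k + 2))) :
    0 ≤ U (res x (AA (2 * k + 2) {i}) (isClopen_AA _ _)) (k : ℤ_[2]) := by
  set xi := res x (AA (2 * k + 2) {i}) (isClopen_AA _ _) with hxi
  have hpt : ∀ n : ℕ, 0 ≤ U xi ((k : ℤ_[2]) + 2 ^ (i.val + 2 ^ (2 * k + 2) * n)) := by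
    intro n
    set N := i.val + 2 ^ (2 * k + 2) * n with hNdef
    have hN : (N : ZMod (2 ^ (2 * k + 2))) = i := by
      rw [hNdef]
      push_cast
      rw [ZMod.natCast_zmod_val]
      have : ((2 : ZMod (2 ^ (2 * k + 2))) ^ (2 * k + 2)) = 0 := by
        have := ZMod.natCast_self (2 ^ (2 * k + 2))
        exact_mod_cast this
      rw [this, zero_mul, add_zero]
    obtain ⟨k1, k2⟩ := key_split x k N i hN
    rw [← hxi] at k1 k2
    have hsplit : xi = res xi (BB k N) (isClopen_BB k N) + res xi (BB k N)ᶜ (isClopen_BB k N).compl :=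
      (res_split xi (isClopen_BB k N)).symm
    have hd := res_disj xi (isClopen_BB k N) (isClopen_BB k N).compl disjoint_compl_right
    rw [hsplit, hU _ _ hd, ContinuousMap.add_apply]
    have a0 : -(V0 (res xi (BB k N) (isClopen_BB k N)) ((k : ℤ_[2]) + 2 ^ N))
      ≤ U (res xi (BB k N) (isClopen_BB k N)) ((k : ℤ_[2]) + 2 ^ N) :=
      h0 _ _
    have a1 : -(V1 (res xi (BB k N)ᶜ (isClopen_BB k N).compl) ((k : ℤ_[2]) + 2 ^ N))
      ≤ U (res xi (BB k N)ᶜ (isClopen_BB k N).compl) ((k : ℤ_[2]) + 2 ^ N) :=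
      h1 _ _
    rw [k1] at a0
    rw [k2] at a1
    linarith
  have ht := ((U xi).continuous.tendsto (k : ℤ_[2])).comp
    (tendsto_two_pow k i.val (2 ^ (2 * k + 2)) (by positivity))
  exact ge_of_tendsto' ht hpt

lemma U_nonneg (hU : ∀ x y : C(Y, ℝ), |x| ⊓ |y| = 0 → U (x + y) = U x + U y)
    (h0 : ∀ x, -V0 x ≤ U x) (h1 : ∀ x, -V1 x ≤ U x) (x : C(Y, ℝ)) : 0 ≤ U x := by
  have hk : ∀ k : ℕ, 0 ≤ U x (k : ℤ_[2]) := by
    intro k
    have hs : ∀ s : Finset (ZMod (2 ^ (2 * k + 2))),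
        0 ≤ U (res x (AA (2 * k + 2) s) (isClopen_AA _ _)) (k : ℤ_[2]) := by
      intro s
      induction s using Finset.induction_on with
      | empty =>
        have : res x (AA (2 * k + 2) ∅) (isClopen_AA _ _) = 0 := by
          ext z
          rw [res_apply, Set.indicator_of_notMem]
          · rfl
          · intro h
            exact absurd h (Finset.notMem_empty _)
        rw [this, U_zero hU]
        exact le_refl _
      | insert i s hi ih =>
        have hd : Disjoint (AA (2 * k + 2) {i}) (AA (2 * k + 2) s) := by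
          rw [Set.disjoint_left]
          intro z h1 h2
          have h1' : PadicInt.toZModPow (2 * k + 2) z.1 ∈ ({i} : Finset _) := h1
          have h2' : PadicInt.toZModPow (2 * k + 2) z.1 ∈ s := h2
          rw [Finset.mem_singleton] at h1'
          rw [h1'] at h2'
          exact hi h2'
        have hun : res x (AA (2 * k + 2) (insert i s)) (isClopen_AA _ _)
            = res x (AA (2 * k + 2) {i}) (isClopen_AA _ _)
              + res x (AA (2 * k + 2) s) (isClopen_AA _ _) := by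
          rw [← res_union x (isClopen_AA _ _) (isClopen_AA _ _) hd]
          ext z
          rw [res_apply, res_apply]
          congr 1
          ext z
          change PadicInt.toZModPow (2 * k + 2) z.1 ∈ insert i s ↔
            PadicInt.toZModPow (2 * k + 2) z.1 ∈ ({i} : Finset _) ∨
            PadicInt.toZModPow (2 * k + 2) z.1 ∈ s
          rw [Finset.mem_insert, Finset.mem_singleton]
        rw [hun, hU _ _ (res_disj x _ _ hd), ContinuousMap.add_apply]
        exact add_nonneg (U_class_nonneg hU h0 h1 x k i) ih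
    have hu := hs Finset.univ
    have : res x (AA (2 * k + 2) Finset.univ) (isClopen_AA _ _) = x := by
      ext z
      rw [res_apply, Set.indicator_of_mem]
      exact Finset.mem_univ _
    rwa [this] at hu
  intro t
  change (0 : ℝ) ≤ U x t
  have hcl : IsClosed {t : ℤ_[2] | 0 ≤ U x t} :=
    isClosed_le continuous_const (U x).continuous
  have hall : ∀ t : ℤ_[2], t ∈ {t : ℤ_[2] | 0 ≤ U x t} := by
    intro t
    exact PadicInt.denseRange_natCast.induction_on t hcl hk
  exact hall t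

end main

/-- the test element -/
noncomputable def x0 : C(Y, ℝ) := res 1 (AA 2 {0}) (isClopen_AA _ _)

lemma bound (t : ℤ_[2]) (n : ℕ) (ht : ‖t‖ = (2 : ℝ) ^ (-((1 + 4 * n : ℕ) : ℤ))) (u v : C(Y, ℝ))
    (huv : u + v = x0) : 1 / 6 ≤ V0 u t + V1 v t := by
  have hval := valuation_of_norm ht
  set C : ℕ → Set ℤ_[2] := fun k => {ω | PadicInt.toZModPow (2 * (k + 1) + 2) ω =
    (((t - ((k + 1 : ℕ) : ℤ_[2])).valuation : ℕ) : ZMod (2 ^ (2 * (k + 1) + 2)))} with hC
  set C0 : Set ℤ_[2] := {ω | PadicInt.toZModPow 2 ω = 0} with hC0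
  set G : Set ℤ_[2] := C0 \ ⋃ k, C k with hG
  have hCm : ∀ k, MeasurableSet (C k) := fun k => (isClopen_class _ _).isOpen.measurableSet
  have hC0m : MeasurableSet C0 := (isClopen_class _ _).isOpen.measurableSet
  have hUm : MeasurableSet (⋃ k, C k) := MeasurableSet.iUnion hCm
  have hGm : MeasurableSet G := hC0m.diff hUm
  have hPC : ∀ k, P.real (C k) = (1 / 16) * (1 / 4) ^ k := by
    intro k
    rw [Measure.real, hC]
    simp only
    rw [measure_class]
    rw [ENNReal.toReal_inv, ENNReal.toReal_pow]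
    have : (2 : ENNReal).toReal = 2 := by norm_num
    rw [this, show 2 * (k + 1) + 2 = 4 + 2 * k by ring, pow_add, pow_mul]
    rw [mul_inv, one_div_pow]
    norm_num
  have hsum : HasSum (fun k : ℕ => (1 / 16 : ℝ) * (1 / 4) ^ k) (1 / 12) := by
    have h := (hasSum_geometric_of_lt_one (show (0 : ℝ) ≤ 1 / 4 by norm_num)
      (show (1 / 4 : ℝ) < 1 by norm_num)).mul_left (1 / 16)
    have e : (1 / 16 : ℝ) * (1 - 1 / 4)⁻¹ = 1 / 12 := by norm_num
    rwa [e] at h
  have hPU : P.real (⋃ k, C k) ≤ 1 / 12 := by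
    have hle : P (⋃ k, C k) ≤ ∑' k, P (C k) := measure_iUnion_le _
    have hle2 : ∑' k, P (C k) = ENNReal.ofReal (1 / 12) := by
      rw [← hsum.tsum_eq, ENNReal.ofReal_tsum_of_nonneg (fun k => by positivity) hsum.summable]
      congr 1
      ext k
      rw [← hPC k, Measure.real, ENNReal.ofReal_toReal (measure_ne_top _ _)]
    rw [hle2] at hle
    rw [Measure.real]
    exact ENNReal.toReal_le_of_le_ofReal (by norm_num) hle
  have hP0 : P.real C0 = 1 / 4 := by
    rw [Measure.real, hC0, measure_class]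
    rw [ENNReal.toReal_inv, ENNReal.toReal_pow]
    norm_num
  have hPG : 1 / 6 ≤ P.real G := by
    have h1 : P.real C0 ≤ P.real G + P.real (⋃ k, C k) := by
      have : C0 ⊆ G ∪ ⋃ k, C k := by
        intro ω hω
        by_cases h : ω ∈ ⋃ k, C k
        · exact Or.inr h
        · exact Or.inl ⟨hω, h⟩
      exact (measureReal_mono this).trans (measureReal_union_le _ _)
    linarith
  have hPhi : ∀ ω ∈ G, Phi t ω = Phi0 ω := by
    intro ω hω
    unfold Phi Phi0
    congr 1
    ext1 k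
    apply co_of_not
    rcases k with _ | k
    · intro hk
      unfold Kill at hk
      have h0 : PadicInt.toZModPow 2 ω = 0 := hω.1
      have e : t - ((0 : ℕ) : ℤ_[2]) = t := by simp
      rw [e, hval] at hk
      have hk' : PadicInt.toZModPow 2 ω = ((1 + 4 * n : ℕ) : ZMod (2 ^ 2)) := hk
      rw [h0] at hk'
      have h4 : (4 : ZMod (2 ^ 2)) = 0 := by decide
      push_cast at hk'
      rw [h4, zero_mul, add_zero] at hk'
      exact absurd hk' (by decide)
    · intro hk
      apply hω.2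
      rw [Set.mem_iUnion]
      exact ⟨k, hk⟩
  rw [V0_apply, V1_apply]
  have i0 : Integrable (fun ω => |u (Phi0 ω)|) P :=
    integrable_of_cont ((u.continuous.comp continuous_Phi0).abs)
  have i1 : Integrable (fun ω => |v (Phi t ω)|) P :=
    integrable_of_cont ((v.continuous.comp (continuous_Phi_right t)).abs)
  rw [← integral_add i0 i1]
  refine hPG.trans ?_
  have hind : P.real G = ∫ ω, G.indicator (fun _ => (1 : ℝ)) ω ∂P := by
    rw [integral_indicator hGm]; simp
  rw [hind]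
  apply integral_mono
  · exact (integrable_const (1 : ℝ)).indicator hGm
  · exact i0.add i1
  · intro ω
    by_cases hω : ω ∈ G
    · simp only [Set.indicator_of_mem hω]
      rw [hPhi ω hω]
      have h1 : u (Phi0 ω) + v (Phi0 ω) = 1 := by
        have h2 := congrArg (fun f : C(Y, ℝ) => f (Phi0 ω)) huv
        simp only [ContinuousMap.add_apply] at h2
        rw [h2]
        unfold x0
        rw [res_apply, Set.indicator_of_mem]
        · rfl
        · change PadicInt.toZModPow 2 ω ∈ ({0} : Finset _)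
          rw [Finset.mem_singleton]
          exact hω.1
      calc (1 : ℝ) = |u (Phi0 ω) + v (Phi0 ω)| := by rw [h1, abs_one]
        _ ≤ |u (Phi0 ω)| + |v (Phi0 ω)| := abs_add_le _ _
    · simp only [Set.indicator_of_notMem hω]
      positivity

/-- No least upper bound at `x0`. -/
theorem no_sup : ¬ ∃ s : C(ℤ_[2], ℝ), IsLUB {y : C(ℤ_[2], ℝ) | ∃ u v : C(Y, ℝ),
    |u| ⊓ |v| = 0 ∧ u + v = x0 ∧ y = -V0 u + -V1 v} s := by
  rintro ⟨s, hs⟩
  -- values at `2 ^ (4 n)`
  have ha : ∀ n : ℕ, 0 ≤ s (((0 : ℕ) : ℤ_[2]) + 2 ^ (0 + 4 * n)) := by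
    intro n
    have hN : ((0 + 4 * n : ℕ) : ZMod (2 ^ (2 * 0 + 2))) = 0 := by
      have h4 : (4 : ZMod (2 ^ (2 * 0 + 2))) = 0 := by decide
      push_cast
      rw [h4]; simp
    obtain ⟨k1, k2⟩ := key_split 1 0 (0 + 4 * n) 0 hN
    have hx : res 1 (AA (2 * 0 + 2) {0}) (isClopen_AA _ _) = x0 := rfl
    rw [hx] at k1 k2
    have hsplit : res x0 (BB 0 (0 + 4 * n)) (isClopen_BB _ _)
        + res x0 (BB 0 (0 + 4 * n))ᶜ (isClopen_BB _ _).compl = x0 :=
      res_split x0 (isClopen_BB _ _)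
    have hd := res_disj x0 (isClopen_BB 0 (0 + 4 * n)) (isClopen_BB 0 (0 + 4 * n)).compl
      disjoint_compl_right
    have hle := hs.1 ⟨_, _, hd, hsplit, rfl⟩ (((0 : ℕ) : ℤ_[2]) + 2 ^ (0 + 4 * n))
    change -(V0 _ _) + -(V1 _ _) ≤ s _ at hle
    rw [k1, k2] at hle
    linarith
  have hs0 : 0 ≤ s ((0 : ℕ) : ℤ_[2]) := by
    have ht := (s.continuous.tendsto ((0 : ℕ) : ℤ_[2])).comp
      (tendsto_two_pow 0 0 4 (by norm_num))
    exact ge_of_tendsto' ht ha
  have hb : ∃ n : ℕ, -(1 / 12) < s (((0 : ℕ) : ℤ_[2]) + 2 ^ (1 + 4 * n)) := by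
    have ht := (s.continuous.tendsto ((0 : ℕ) : ℤ_[2])).comp
      (tendsto_two_pow 0 1 4 (by norm_num))
    have h12 : -(1 / 12 : ℝ) < s ((0 : ℕ) : ℤ_[2]) := lt_of_lt_of_le (by norm_num) hs0
    have := ht.eventually (lt_mem_nhds h12)
    exact this.exists
  obtain ⟨n, hn⟩ := hb
  set V : Set ℤ_[2] := {x | ‖x‖ = (2 : ℝ) ^ (-((1 + 4 * n : ℕ) : ℤ))} with hV
  have hVc : IsClopen V := isClopen_sph (1 + 4 * n)
  set w : C(ℤ_[2], ℝ) := ⟨fun x => s x + V.indicator (fun x => min (s x) (-(1 / 6)) - s x) x, by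
    refine s.continuous.add (hVc.continuous_indicator ?_)
    exact (s.continuous.min continuous_const).sub s.continuous⟩ with hw
  have hwub : w ∈ upperBounds {y : C(ℤ_[2], ℝ) | ∃ u v : C(Y, ℝ),
      |u| ⊓ |v| = 0 ∧ u + v = x0 ∧ y = -V0 u + -V1 v} := by
    rintro y ⟨u, v, hd, huv, rfl⟩ t
    have h1 := hs.1 ⟨u, v, hd, huv, rfl⟩ t
    change -(V0 u t) + -(V1 v t) ≤ s t at h1
    change -(V0 u t) + -(V1 v t) ≤ s t + V.indicator (fun x => min (s x) (-(1 / 6)) - s x) t
    by_cases ht : t ∈ V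
    · rw [Set.indicator_of_mem ht]
      have h2 := bound t n ht u v huv
      have : -(V0 u t) + -(V1 v t) ≤ min (s t) (-(1 / 6)) := le_min h1 (by linarith)
      linarith
    · rw [Set.indicator_of_notMem ht]
      linarith
  have hsw := hs.2 hwub (((0 : ℕ) : ℤ_[2]) + 2 ^ (1 + 4 * n))
  have hmem : (((0 : ℕ) : ℤ_[2]) + 2 ^ (1 + 4 * n)) ∈ V := by
    change ‖((0 : ℕ) : ℤ_[2]) + 2 ^ (1 + 4 * n)‖ = _
    rw [Nat.cast_zero, zero_add]
    exact norm_two_pow _
  change s _ ≤ s _ + V.indicator (fun x => min (s x) (-(1 / 6)) - s x) _ at hsw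
  rw [Set.indicator_of_mem hmem] at hsw
  have := min_le_right (s (((0 : ℕ) : ℤ_[2]) + 2 ^ (1 + 4 * n))) (-(1 / 6))
  linarith

end Pool.Agent.Lib.Pf32e1d
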